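import Pool.Agent.Lib.TWTG.D
import Mathlib.LinearAlgebra.Dual.Lemmas

/-!
# TANK W, contact (III.1), j = 1: the space of the noise polynomials

`y : k² → V` is a polynomial map modulo a subspace `Z` of `V`; `NU Z y` is the space of the
polynomials `c ↦ lam (y c)`, `lam` a functional which vanishes on `Z`.

* `mem_NU_step`, `mem_NU_swp`: the elementary steps and the exchange;
* `NU_le_span`, `mem_NU`: `NU Z y` from a presentation `y c = ∑ N_j(c) n_j` modulo `Z`;
* `cmp_mem_NU`: `NU Z y` is graded if the relations between the coefficients of `y` are graded.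
-/

set_option autoImplicit false

open Finset MvPolynomial

namespace Pool.Agent.TWTG

variable {k V A : Type*} [Field k] [AddCommGroup V] [Module k V] [AddCommGroup A] {p : ℕ}
  {Z : Submodule k V} {y y' : (Fin 2 → k) → V}

/-- The noise polynomials. -/
def NU (Z : Submodule k V) (y : (Fin 2 → k) → V) : Submodule k (MvPolynomial (Fin 2) k) where
  carrier := {N | ∃ lam : V →ₗ[k] k, (∀ z ∈ Z, lam z = 0) ∧ ∀ c, eval c N = lam (y c)}
  zero_mem' := ⟨0, fun _ _ => rfl, fun c => by simp⟩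
  add_mem' := by
    rintro N N' ⟨l, h1, h2⟩ ⟨l', h1', h2'⟩
    exact ⟨l + l', fun z hz => by rw [LinearMap.add_apply, h1 z hz, h1' z hz, add_zero],
      fun c => by rw [map_add, h2, h2', LinearMap.add_apply]⟩
  smul_mem' := by
    rintro a N ⟨l, h1, h2⟩
    exact ⟨a • l, fun z hz => by rw [LinearMap.smul_apply, h1 z hz, smul_zero],
      fun c => by rw [smul_eval, h2, LinearMap.smul_apply, smul_eq_mul]⟩

theorem mem_NU_iff {N : MvPolynomial (Fin 2) k} : N ∈ NU Z y ↔
    ∃ lam : V →ₗ[k] k, (∀ z ∈ Z, lam z = 0) ∧ ∀ c, eval c N = lam (y c) := Iff.rfl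

theorem NU_congr (h : ∀ c, y c - y' c ∈ Z) : NU Z y = NU Z y' := by
  ext N
  constructor
  · rintro ⟨l, h1, h2⟩
    refine ⟨l, h1, fun c => ?_⟩
    have h3 := h1 _ (h c)
    rw [map_sub, sub_eq_zero] at h3
    rw [h2, h3]
  · rintro ⟨l, h1, h2⟩
    refine ⟨l, h1, fun c => ?_⟩
    have h3 := h1 _ (h c)
    rw [map_sub, sub_eq_zero] at h3
    rw [h2, h3]

/-! ### The steps -/

/-- The step on the points. -/
def stc (p : ℕ) (lam : k) (d : ℕ) (c : Fin 2 → k) : Fin 2 → k := ![c 0, c 1 + lam * c 0 ^ p ^ d]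

theorem eval_stp (lam : k) (d : ℕ) (c : Fin 2 → k) (N : MvPolynomial (Fin 2) k) :
    eval c (stp p lam d N) = eval (stc p lam d c) N := by
  have h1 : ((aeval c : MvPolynomial (Fin 2) k →ₐ[k] k).comp (stp p lam d)) =
      aeval (stc p lam d c) := by
    ext i
    fin_cases i
    · simp [stp, stc]
    · simp [stp, stc]
  have h2 := DFunLike.congr_fun h1 N
  rw [AlgHom.comp_apply] at h2
  exact h2

theorem eval_swp (c : Fin 2 → k) (N : MvPolynomial (Fin 2) k) :
    eval c (swp N) = eval ![c 1, c 0] N := by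
  have h1 : ((aeval c : MvPolynomial (Fin 2) k →ₐ[k] k).comp swp) = aeval ![c 1, c 0] := by
    ext i
    fin_cases i
    · simp [swp]
    · simp [swp]
  have h2 := DFunLike.congr_fun h1 N
  rw [AlgHom.comp_apply] at h2
  exact h2

theorem stc_stc (lam : k) (d : ℕ) (c : Fin 2 → k) : stc p lam d (stc p (-lam) d c) = c := by
  funext i
  fin_cases i
  · simp [stc]
  · simp [stc]

theorem mem_NU_step [Infinite k] {lam : k} {d : ℕ} {N : MvPolynomial (Fin 2) k}
    (h : N ∈ NU Z fun c => y (stc p lam d c)) : ∃ N' ∈ NU Z y, stp p lam d N' = N := by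
  obtain ⟨l, h1, h2⟩ := h
  refine ⟨stp p (-lam) d N, ⟨l, h1, fun c => ?_⟩, ?_⟩
  · rw [eval_stp, h2]
    simp only [stc_stc]
  · refine MvPolynomial.funext fun c => ?_
    rw [eval_stp, eval_stp]
    congr 2
    have h3 := stc_stc (p := p) (-lam) d c
    rwa [neg_neg] at h3

theorem mem_NU_swp [Infinite k] {N : MvPolynomial (Fin 2) k}
    (h : N ∈ NU Z fun c => y ![c 1, c 0]) : ∃ N' ∈ NU Z y, swp N' = N := by
  obtain ⟨l, h1, h2⟩ := h
  have h3 : ∀ c : Fin 2 → k, ![c 1, c 0] = fun i => ![c 1, c 0] i := fun _ => rfl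
  have h4 : ∀ c : Fin 2 → k, ![![c 1, c 0] 1, ![c 1, c 0] 0] = c := by
    intro c
    funext i
    fin_cases i
    · simp
    · simp
  refine ⟨swp N, ⟨l, h1, fun c => ?_⟩, ?_⟩
  · rw [eval_swp, h2]
    simp only [h4]
  · refine MvPolynomial.funext fun c => ?_
    rw [eval_swp, eval_swp, h4]

/-! ### A presentation -/

section pres

variable {ι : Type*} [Fintype ι] {n : ι → V} {N : ι → MvPolynomial (Fin 2) k}

theorem NU_le_span [Infinite k] (hy : ∀ c, y c - ∑ j, eval c (N j) • n j ∈ Z) :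
    NU Z y ≤ Submodule.span k (Set.range N) := by
  rintro P ⟨l, h1, h2⟩
  have h3 : P = ∑ j, l (n j) • N j := by
    refine MvPolynomial.funext fun c => ?_
    have h4 := h1 _ (hy c)
    rw [map_sub, sub_eq_zero] at h4
    rw [h2, h4, map_sum, map_sum]
    refine sum_congr rfl fun j _ => ?_
    rw [map_smul, smul_eval, smul_eq_mul, mul_comm]
  rw [h3]
  exact Submodule.sum_mem _ fun j _ => Submodule.smul_mem _ _ (Submodule.subset_span ⟨j, rfl⟩)

theorem mem_NU [DecidableEq ι] (hy : ∀ c, y c - ∑ j, eval c (N j) • n j ∈ Z)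
    (hind : ∀ a : ι → k, ∑ j, a j • n j ∈ Z → ∀ j, a j = 0) (j : ι) : N j ∈ NU Z y := by
  -- the dual functional
  set f : (ι → k) →ₗ[k] V ⧸ Z := Z.mkQ ∘ₗ
    (∑ i, (LinearMap.proj i : (ι → k) →ₗ[k] k).smulRight (n i)) with hf
  have hfa : ∀ a : ι → k, f a = Z.mkQ (∑ i, a i • n i) := by
    intro a
    rw [hf, LinearMap.comp_apply, LinearMap.sum_apply]
    rfl
  have hker : LinearMap.ker f ≤ LinearMap.ker (LinearMap.proj j : (ι → k) →ₗ[k] k) := by
    intro a ha
    rw [LinearMap.mem_ker, hfa, Submodule.mkQ_apply, Submodule.Quotient.mk_eq_zero] at ha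
    rw [LinearMap.mem_ker, LinearMap.proj_apply]
    exact hind a ha j
  have h1 : (LinearMap.proj j : (ι → k) →ₗ[k] k) ∈ LinearMap.range f.dualMap := by
    rw [LinearMap.range_dualMap_eq_dualAnnihilator_ker, Submodule.mem_dualAnnihilator]
    exact fun a ha => hker ha
  obtain ⟨t, ht⟩ := h1
  refine ⟨t ∘ₗ Z.mkQ, fun z hz => ?_, fun c => ?_⟩
  · rw [LinearMap.comp_apply, Submodule.mkQ_apply, (Submodule.Quotient.mk_eq_zero Z).2 hz,
      map_zero]
  · have h2 : Z.mkQ (y c) = Z.mkQ (∑ i, eval c (N i) • n i) := by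
      rw [Submodule.mkQ_apply, Submodule.mkQ_apply, Submodule.Quotient.eq]
      exact hy c
    rw [LinearMap.comp_apply, h2, ← hfa, ← LinearMap.dualMap_apply, ht, LinearMap.proj_apply]

end pres

/-! ### Functionals with given values -/

/-- **A functional with given values** on a finite family, zero on `Z`. -/
theorem exists_functional {I : Type*} (S : Finset I) (u : I → V) (t : I → k)
    (h : ∀ m : I → k, ∑ g ∈ S, m g • u g ∈ Z → ∑ g ∈ S, m g * t g = 0) :
    ∃ lam : V →ₗ[k] k, (∀ z ∈ Z, lam z = 0) ∧ ∀ g ∈ S, lam (u g) = t g := by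
  classical
  set f : (S → k) →ₗ[k] V ⧸ Z := Z.mkQ ∘ₗ
    (∑ g : S, (LinearMap.proj g : (S → k) →ₗ[k] k).smulRight (u g)) with hf
  have hfa : ∀ a : S → k, f a = Z.mkQ (∑ g : S, a g • u g) := by
    intro a
    rw [hf, LinearMap.comp_apply, LinearMap.sum_apply]
    rfl
  set T : (S → k) →ₗ[k] k := ∑ g : S, t g • (LinearMap.proj g : (S → k) →ₗ[k] k) with hT
  have hTa : ∀ a : S → k, T a = ∑ g : S, t g * a g := by
    intro a
    rw [hT, LinearMap.sum_apply]
    rfl
  have hker : LinearMap.ker f ≤ LinearMap.ker T := by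
    intro a ha
    rw [LinearMap.mem_ker, hfa, Submodule.mkQ_apply, Submodule.Quotient.mk_eq_zero] at ha
    rw [LinearMap.mem_ker, hTa]
    set m : I → k := fun g => if h : g ∈ S then a ⟨g, h⟩ else 0 with hm
    have hmg : ∀ g : S, m g = a g := fun g => by simp [hm]
    have h3 : ∑ g ∈ S, m g • u g ∈ Z := by
      rw [← sum_coe_sort S (fun g => m g • u g)]
      simp only [hmg]
      exact ha
    have h4 := h m h3
    rw [← sum_coe_sort S] at h4
    rw [← h4]
    refine sum_congr rfl fun g _ => ?_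
    rw [hmg, mul_comm]
  have h3 : T ∈ LinearMap.range f.dualMap := by
    rw [LinearMap.range_dualMap_eq_dualAnnihilator_ker, Submodule.mem_dualAnnihilator]
    exact fun a ha => hker ha
  obtain ⟨t', ht'⟩ := h3
  refine ⟨t' ∘ₗ Z.mkQ, fun z hz => ?_, fun g hg => ?_⟩
  · rw [LinearMap.comp_apply, Submodule.mkQ_apply, (Submodule.Quotient.mk_eq_zero Z).2 hz,
      map_zero]
  · have h4 : u g = ∑ i : S, (Pi.single (⟨g, hg⟩ : S) (1 : k) : S → k) i • u i := by
      rw [sum_eq_single (⟨g, hg⟩ : S)]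
      · rw [Pi.single_eq_same, one_smul]
      · intro i _ hi
        rw [Pi.single_eq_of_ne hi, zero_smul]
      · exact fun h => absurd (mem_univ _) h
    rw [LinearMap.comp_apply, h4, ← hfa, ← LinearMap.dualMap_apply, ht', hTa,
      sum_eq_single (⟨g, hg⟩ : S)]
    · rw [Pi.single_eq_same, mul_one]
    · intro i _ hi
      rw [Pi.single_eq_of_ne hi, mul_zero]
    · exact fun h => absurd (mem_univ _) h

/-! ### The grading -/

/-- **The space of the noise polynomials is graded**, if the relations are. -/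
theorem cmp_mem_NU [Infinite k] {r : Fin 2 → A} {S : Finset (Fin 2 →₀ ℕ)} {u : (Fin 2 →₀ ℕ) → V}
    (hy : ∀ c, y c - ∑ g ∈ S, (c 0 ^ g 0 * c 1 ^ g 1) • u g ∈ Z)
    (hgr : ∀ m : (Fin 2 →₀ ℕ) → k, ∑ g ∈ S, m g • u g ∈ Z → ∀ γ : A,
      open Classical in ∑ g ∈ S with dgr r g = γ, m g • u g ∈ Z)
    {N : MvPolynomial (Fin 2) k} (hN : N ∈ NU Z y) (γ : A) : cmp r γ N ∈ NU Z y := by
  classical
  obtain ⟨l, h1, h2⟩ := hN
  have hN : N = ∑ g ∈ S, monomial g (l (u g)) := by
    refine MvPolynomial.funext fun c => ?_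
    have h4 := h1 _ (hy c)
    rw [map_sub, sub_eq_zero] at h4
    rw [h2, h4, map_sum, map_sum]
    refine sum_congr rfl fun g _ => ?_
    rw [map_smul, eval_monomial, Finsupp.prod_fintype _ _ (fun i => pow_zero _),
      Fin.prod_univ_two, smul_eq_mul, mul_comm]
  have hcf : ∀ g, coeff g N = if g ∈ S then l (u g) else 0 := by
    intro g
    rw [hN, coeff_sum]
    simp_rw [coeff_monomial]
    rw [sum_ite_eq']
  have hcm : cmp r γ N = ∑ g ∈ S, monomial g (if dgr r g = γ then l (u g) else 0) := by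
    refine MvPolynomial.ext _ _ fun g => ?_
    rw [coeff_cmp, coeff_sum]
    simp_rw [coeff_monomial]
    rw [sum_ite_eq', hcf]
    split_ifs <;> rfl
  obtain ⟨l', h3, h4⟩ := exists_functional (Z := Z) S u
    (fun g => if dgr r g = γ then l (u g) else 0) (by
      intro m hm
      have h5 := h1 _ (hgr m hm γ)
      rw [map_sum, sum_filter] at h5
      refine Eq.trans (sum_congr rfl fun g _ => ?_) h5
      split_ifs
      · rw [map_smul, smul_eq_mul]
      · rw [mul_zero])
  refine ⟨l', h3, fun c => ?_⟩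
  have h5 := h3 _ (hy c)
  rw [map_sub, sub_eq_zero] at h5
  rw [h5, hcm, map_sum, map_sum]
  refine sum_congr rfl fun g hg => ?_
  rw [map_smul, eval_monomial, Finsupp.prod_fintype _ _ (fun i => pow_zero _), Fin.prod_univ_two,
    h4 g hg, smul_eq_mul, mul_comm]

/-- A graded space of polynomials is generated by its homogeneous elements. -/
theorem mem_span_hom {U : Submodule k (MvPolynomial (Fin 2) k)} {r : Fin 2 → A}
    (h : ∀ N ∈ U, ∀ γ, cmp r γ N ∈ U) {N : MvPolynomial (Fin 2) k} (hN : N ∈ U) :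
    N ∈ Submodule.span k {Q | Q ∈ U ∧ ∃ c : A, Hm r c Q} := by
  classical
  have h1 : N = ∑ γ ∈ N.support.image (dgr r), cmp r γ N := by
    refine MvPolynomial.ext _ _ fun m => ?_
    rw [coeff_sum]
    simp_rw [coeff_cmp]
    by_cases hm : m ∈ N.support
    · rw [sum_eq_single_of_mem (dgr r m) (mem_image_of_mem _ hm), if_pos rfl]
      intro γ _ hγ
      rw [if_neg (fun h => hγ h.symm)]
    · rw [notMem_support_iff.1 hm]
      symm
      exact sum_eq_zero fun γ _ => ite_self _
  rw [h1]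
  refine Submodule.sum_mem _ fun γ _ => Submodule.subset_span ⟨h N hN γ, γ, fun m hm => ?_⟩
  exact (support_cmp hm).2

end Pool.Agent.TWTG
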