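import Pool.Agent.Lib.TWTG.C

/-!
# TANK W, contact (III.1), j = 1: homogeneous Euclid

A property of pairs (degrees `r`, set `U` of polynomials) which is stable under the elementary steps
`X 1 ↦ X 1 + lam * X 0 ^ p ^ d` (`r 1 = p ^ d • r 0`) and under the exchange of the two variables: if
`U` is contained in `k[f]` for one homogeneous additive `f`, then some `U'` is contained in `k[X 0]`.
-/

set_option autoImplicit false

open Finset MvPolynomial

namespace Pool.Agent.TWTG

variable {k A : Type*} [Field k] [AddCommGroup A] {p : ℕ}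

/-- The elementary step. -/
noncomputable def stp (p : ℕ) (lam : k) (d : ℕ) : MvPolynomial (Fin 2) k →ₐ[k] MvPolynomial (Fin 2) k :=
  aeval ![X 0, X 1 + C lam * X 0 ^ p ^ d]

/-- The exchange. -/
noncomputable def swp : MvPolynomial (Fin 2) k →ₐ[k] MvPolynomial (Fin 2) k :=
  aeval ![X 1, X 0]

/-- The additive polynomial with given coefficients. -/
noncomputable def apol (p : ℕ) (a b : ℕ → k) (M N : ℕ) : MvPolynomial (Fin 2) k :=
  ∑ i ∈ range M, C (a i) * X 0 ^ p ^ i + ∑ j ∈ range N, C (b j) * X 1 ^ p ^ j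

theorem swp_apol (a b : ℕ → k) (M N : ℕ) : swp (apol p a b M N) = apol p b a N M := by
  simp [swp, apol, map_sum, add_comm]

theorem stp_apol [hp : Fact p.Prime] [CharP k p] (lam : k) (a b : ℕ → k) (m n d : ℕ)
    (hmn : n + d = m) (h0 : a m + b n * lam ^ p ^ n = 0) :
    stp p lam d (apol p a b (m + 1) (n + 1)) =
      apol p (fun i => a i + if d ≤ i then b (i - d) * lam ^ p ^ (i - d) else 0) b m (n + 1) := by
  have _ : CharP (MvPolynomial (Fin 2) k) p := inferInstance
  have h1 : ∀ j : ℕ, stp p lam d (C (b j) * X 1 ^ p ^ j) =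
      C (b j) * X 1 ^ p ^ j + C (b j * lam ^ p ^ j) * X 0 ^ p ^ (j + d) := by
    intro j
    have h5 : stp p lam d (X 1) = X 1 + C lam * X 0 ^ p ^ d := by
      rw [stp, aeval_X]
      rfl
    have h6 : stp p lam d (C (b j)) = C (b j) := by
      rw [stp, algHom_C]
      rfl
    rw [map_mul, map_pow, h5, h6, add_pow_char_pow, mul_add, mul_pow, ← C_pow, ← pow_mul,
      ← pow_add, C_mul, mul_assoc, add_comm d j]
  have h2 : ∀ i : ℕ, stp p lam d (C (a i) * X 0 ^ p ^ i) = C (a i) * X 0 ^ p ^ i := by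
    intro i
    simp [stp]
  rw [apol, map_add, map_sum, map_sum, sum_congr rfl fun i _ => h2 i, sum_congr rfl fun j _ => h1 j,
    sum_add_distrib, apol]
  have h3 : ∑ i ∈ range m, (C (a i + if d ≤ i then b (i - d) * lam ^ p ^ (i - d) else 0) :
      MvPolynomial (Fin 2) k) * X 0 ^ p ^ i =
      ∑ i ∈ range (m + 1), C (a i) * X 0 ^ p ^ i +
        ∑ j ∈ range (n + 1), C (b j * lam ^ p ^ j) * X 0 ^ p ^ (j + d) := by
    have h4 : ∑ j ∈ range (n + 1), (C (b j * lam ^ p ^ j) : MvPolynomial (Fin 2) k) *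
        X 0 ^ p ^ (j + d) = ∑ i ∈ range (m + 1),
          (C (if d ≤ i then b (i - d) * lam ^ p ^ (i - d) else 0) : MvPolynomial (Fin 2) k) *
            X 0 ^ p ^ i := by
      rw [show m + 1 = d + (n + 1) by omega, sum_range_add (n := d) (m := n + 1)]
      have h6 : ∑ i ∈ range d, (C (if d ≤ i then b (i - d) * lam ^ p ^ (i - d) else 0) :
          MvPolynomial (Fin 2) k) * X 0 ^ p ^ i = 0 := by
        refine sum_eq_zero fun i hi => ?_
        rw [if_neg (by have := mem_range.1 hi; omega), C_0, zero_mul]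
      rw [h6, zero_add]
      refine sum_congr rfl fun j _ => ?_
      rw [if_pos (by omega), Nat.add_sub_cancel_left, add_comm d j]
    rw [h4, ← sum_add_distrib, sum_range_succ]
    have h5 : (C (a m) : MvPolynomial (Fin 2) k) * X 0 ^ p ^ m +
        C (if d ≤ m then b (m - d) * lam ^ p ^ (m - d) else 0) * X 0 ^ p ^ m = 0 := by
      rw [← add_mul, ← C_add, if_pos (by omega), show m - d = n by omega, h0, C_0, zero_mul]
    rw [h5, add_zero]
    refine sum_congr rfl fun i _ => ?_
    rw [C_add, add_mul]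
  rw [h3]
  ring

/-- **Homogeneous Euclid**, with coefficients. -/
theorem euclid_apol [hp : Fact p.Prime] [CharP k p] (hA : ∀ a : A, p • a = 0 → a = 0)
    (hk : ∀ (x : k) (n : ℕ), ∃ y : k, y ^ p ^ n = x)
    {P : (Fin 2 → A) → Set (MvPolynomial (Fin 2) k) → Prop}
    (hel : ∀ (r : Fin 2 → A) (U : Set (MvPolynomial (Fin 2) k)) (d : ℕ) (lam : k), P r U →
      lam ≠ 0 → r 1 = p ^ d • r 0 → P r (stp p lam d '' U))
    (hsw : ∀ (r : Fin 2 → A) (U : Set (MvPolynomial (Fin 2) k)), P r U →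
      P ![r 1, r 0] (swp '' U)) (c : A) :
    ∀ (K M N : ℕ) (r : Fin 2 → A) (U : Set (MvPolynomial (Fin 2) k)) (a b : ℕ → k), M + N ≤ K →
      (∀ i < M, a i ≠ 0 → p ^ i • r 0 = c) → (∀ j < N, b j ≠ 0 → p ^ j • r 1 = c) → P r U →
      (∀ Q ∈ U, ∃ n : Polynomial k, Q = Polynomial.aeval (apol p a b M N) n) →
      ∃ (r' : Fin 2 → A) (U' : Set (MvPolynomial (Fin 2) k)), P r' U' ∧
        ∀ Q ∈ U', ∃ n : Polynomial k, Q = Polynomial.aeval (X 0) n := by
  have hA' : ∀ (n : ℕ) (a : A), p ^ n • a = 0 → a = 0 := by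
    intro n
    induction n with
    | zero => intro a ha; rwa [pow_zero, one_smul] at ha
    | succ n ih =>
      intro a ha
      rw [pow_succ, mul_smul] at ha
      exact hA a (ih _ ha)
  have hswU : ∀ (U : Set (MvPolynomial (Fin 2) k)) (f : MvPolynomial (Fin 2) k),
      (∀ Q ∈ U, ∃ n : Polynomial k, Q = Polynomial.aeval f n) →
      ∀ Q ∈ swp '' U, ∃ n : Polynomial k, Q = Polynomial.aeval (swp f) n := by
    rintro U f hU _ ⟨Q, hQ, rfl⟩
    obtain ⟨n, rfl⟩ := hU Q hQ
    exact ⟨n, (Polynomial.aeval_algHom_apply _ _ _).symm⟩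
  have hstU : ∀ (U : Set (MvPolynomial (Fin 2) k)) (f : MvPolynomial (Fin 2) k) (lam : k) (d : ℕ),
      (∀ Q ∈ U, ∃ n : Polynomial k, Q = Polynomial.aeval f n) →
      ∀ Q ∈ stp p lam d '' U, ∃ n : Polynomial k, Q = Polynomial.aeval (stp p lam d f) n := by
    rintro U f lam d hU _ ⟨Q, hQ, rfl⟩
    obtain ⟨n, rfl⟩ := hU Q hQ
    exact ⟨n, (Polynomial.aeval_algHom_apply _ _ _).symm⟩
  -- one variable
  have hone : ∀ (a b : ℕ → k) (M : ℕ), ∃ q : Polynomial k,
      apol p a b M 0 = Polynomial.aeval (X 0 : MvPolynomial (Fin 2) k) q := by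
    intro a b M
    refine ⟨∑ i ∈ range M, Polynomial.C (a i) * Polynomial.X ^ p ^ i, ?_⟩
    rw [apol, range_zero, sum_empty, add_zero, map_sum]
    refine sum_congr rfl fun i _ => ?_
    rw [map_mul, Polynomial.aeval_C, map_pow, Polynomial.aeval_X]
    rfl
  have hone' : ∀ (U : Set (MvPolynomial (Fin 2) k)) (a b : ℕ → k) (M : ℕ),
      (∀ Q ∈ U, ∃ n : Polynomial k, Q = Polynomial.aeval (apol p a b M 0) n) →
      ∀ Q ∈ U, ∃ n : Polynomial k, Q = Polynomial.aeval (X 0) n := by
    intro U a b M hU Q hQ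
    obtain ⟨n, rfl⟩ := hU Q hQ
    obtain ⟨q, hq⟩ := hone a b M
    exact ⟨n.comp q, by rw [hq, Polynomial.aeval_comp]⟩
  intro K
  induction K with
  | zero =>
    intro M N r U a b hK _ _ hP hU
    obtain ⟨rfl, rfl⟩ : M = 0 ∧ N = 0 := by omega
    exact ⟨r, U, hP, hone' U a b 0 hU⟩
  | succ K ih =>
    -- the core case
    have hcore : ∀ (m n : ℕ) (r : Fin 2 → A) (U : Set (MvPolynomial (Fin 2) k)) (a b : ℕ → k),
        (m + 1) + (n + 1) ≤ K + 1 → n ≤ m → a m ≠ 0 → b n ≠ 0 →
        (∀ i < m + 1, a i ≠ 0 → p ^ i • r 0 = c) → (∀ j < n + 1, b j ≠ 0 → p ^ j • r 1 = c) →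
        P r U →
        (∀ Q ∈ U, ∃ n' : Polynomial k, Q = Polynomial.aeval (apol p a b (m + 1) (n + 1)) n') →
        ∃ (r' : Fin 2 → A) (U' : Set (MvPolynomial (Fin 2) k)), P r' U' ∧
          ∀ Q ∈ U', ∃ n : Polynomial k, Q = Polynomial.aeval (X 0) n := by
      intro m n r U a b hK hnm ham hbn ha hb hP hU
      obtain ⟨d, rfl⟩ := Nat.exists_eq_add_of_le hnm
      obtain ⟨lam, hlam⟩ := hk (-(a (n + d)) / b n) n
      have h0 : a (n + d) + b n * lam ^ p ^ n = 0 := by
        rw [hlam, mul_div_cancel₀ _ hbn, add_neg_cancel]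
      have hlam0 : lam ≠ 0 := by
        rintro rfl
        rw [zero_pow (Nat.pow_pos hp.out.pos).ne', mul_zero, add_zero] at h0
        exact ham h0
      have hr : r 1 = p ^ d • r 0 := by
        have h1 := ha (n + d) (by omega) ham
        have h2 := hb n (by omega) hbn
        have h3 : p ^ n • (r 1 - p ^ d • r 0) = 0 := by
          rw [smul_sub, h2, ← mul_smul, ← pow_add, h1, sub_self]
        exact sub_eq_zero.1 (hA' n _ h3)
      have hP' := hel r U d lam hP hlam0 hr
      have hU' := hstU U _ lam d hU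
      rw [stp_apol lam a b (n + d) n d rfl h0] at hU'
      refine ih (n + d) (n + 1) r _ _ b (by omega) ?_ hb hP' hU'
      intro i hi hai
      by_cases h1 : a i = 0
      · rw [h1, zero_add] at hai
        split_ifs at hai with h2
        · have h3 : b (i - d) ≠ 0 := fun h => hai (by rw [h, zero_mul])
          have h4 := hb (i - d) (by omega) h3
          rw [hr, ← mul_smul, ← pow_add] at h4
          rwa [show i - d + d = i by omega] at h4
        · exact absurd rfl hai
      · exact ha i (by omega) h1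
    intro M N r U a b hK ha hb hP hU
    rcases M with _ | m
    · -- swap
      refine ⟨_, _, hsw r U hP, ?_⟩
      have h1 := hswU U _ hU
      rw [swp_apol] at h1
      exact hone' _ b a N h1
    rcases N with _ | n
    · exact ⟨r, U, hP, hone' U a b _ hU⟩
    by_cases ham : a m = 0
    · refine ih m (n + 1) r U a b (by omega) (fun i hi => ha i (by omega)) hb hP ?_
      have h1 : apol p a b (m + 1) (n + 1) = apol p a b m (n + 1) := by
        rw [apol, sum_range_succ, ham, C_0, zero_mul, add_zero, apol]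
      rwa [← h1]
    by_cases hbn : b n = 0
    · refine ih (m + 1) n r U a b (by omega) ha (fun j hj => hb j (by omega)) hP ?_
      have h1 : apol p a b (m + 1) (n + 1) = apol p a b (m + 1) n := by
        rw [apol, sum_range_succ (n := n), hbn, C_0, zero_mul, add_zero, apol]
      rwa [← h1]
    rcases le_total n m with hnm | hnm
    · exact hcore m n r U a b hK hnm ham hbn ha hb hP hU
    · have h1 := hswU U _ hU
      rw [swp_apol] at h1
      exact hcore n m ![r 1, r 0] _ b a (by omega) hnm hbn ham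
        (fun i hi h => by simpa using hb i hi h) (fun i hi h => by simpa using ha i hi h)
        (hsw r U hP) h1

theorem AP.exists_apol {f : MvPolynomial (Fin 2) k} [hp : Fact p.Prime] (hf : AP p f) :
    ∃ M : ℕ, f = apol p (fun i => coeff (Finsupp.single 0 (p ^ i)) f)
      (fun i => coeff (Finsupp.single 1 (p ^ i)) f) M M := by
  classical
  have hinj : ∀ (l : Fin 2) (i j : ℕ), Finsupp.single l (p ^ i) = Finsupp.single l (p ^ j) →
      i = j := by
    intro l i j h
    have h1 := DFunLike.congr_fun h l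
    rw [Finsupp.single_eq_same, Finsupp.single_eq_same] at h1
    exact Nat.pow_right_injective hp.out.two_le h1
  have h01 : ∀ i j : ℕ, (Finsupp.single 0 (p ^ i) : Fin 2 →₀ ℕ) ≠ Finsupp.single 1 (p ^ j) := by
    intro i j h
    have h1 := DFunLike.congr_fun h 0
    rw [Finsupp.single_eq_same, Finsupp.single_eq_of_ne (by decide)] at h1
    exact (Nat.pow_pos hp.out.pos).ne' h1
  refine ⟨f.totalDegree + 1, ?_⟩
  have hmon : ∀ (l : Fin 2) (i : ℕ) (x : k), C x * X l ^ p ^ i =
      monomial (Finsupp.single l (p ^ i)) x := fun l i x => by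
    rw [C_mul_X_pow_eq_monomial]
  refine MvPolynomial.ext _ _ fun m => ?_
  rw [apol, coeff_add, coeff_sum, coeff_sum]
  simp_rw [hmon, coeff_monomial]
  by_cases hm : m ∈ f.support
  · have hdeg := le_totalDegree hm
    obtain ⟨l, i, rfl⟩ := hf m hm
    rw [Finsupp.sum_single_index rfl] at hdeg
    have hi : i ∈ range (f.totalDegree + 1) :=
      mem_range.2 (by have := Nat.lt_pow_self hp.out.one_lt (n := i); omega)
    fin_cases l
    · simp only [Fin.zero_eta, Fin.isValue]
      rw [sum_eq_single_of_mem i hi, if_pos rfl, sum_eq_zero, add_zero]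
      · intro j _
        rw [if_neg (fun h => h01 i j h.symm)]
      · intro j _ hj
        rw [if_neg (fun h => hj (hinj 0 _ _ h))]
    · simp only [Fin.mk_one, Fin.isValue]
      refine Eq.symm (Eq.trans (congrArg₂ (· + ·) (sum_eq_zero ?_)
        ((sum_eq_single_of_mem i hi ?_).trans (if_pos rfl))) (zero_add _))
      · intro j _
        rw [if_neg (fun h => h01 j i h)]
      · intro j _ hj
        rw [if_neg (fun h => hj (hinj 1 _ _ h))]
  · rw [notMem_support_iff.1 hm, sum_eq_zero, sum_eq_zero, add_zero]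
    · intro i _
      split_ifs with h
      · rw [h]; exact notMem_support_iff.1 hm
      · rfl
    · intro i _
      split_ifs with h
      · rw [h]; exact notMem_support_iff.1 hm
      · rfl

/-- **Homogeneous Euclid.** -/
theorem euclid [hp : Fact p.Prime] [CharP k p] (hA : ∀ a : A, p • a = 0 → a = 0)
    (hk : ∀ (x : k) (n : ℕ), ∃ y : k, y ^ p ^ n = x)
    {P : (Fin 2 → A) → Set (MvPolynomial (Fin 2) k) → Prop}
    (hel : ∀ (r : Fin 2 → A) (U : Set (MvPolynomial (Fin 2) k)) (d : ℕ) (lam : k), P r U →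
      lam ≠ 0 → r 1 = p ^ d • r 0 → P r (stp p lam d '' U))
    (hsw : ∀ (r : Fin 2 → A) (U : Set (MvPolynomial (Fin 2) k)), P r U →
      P ![r 1, r 0] (swp '' U)) {c : A} {r : Fin 2 → A} {U : Set (MvPolynomial (Fin 2) k)}
    (hP : P r U) {f : MvPolynomial (Fin 2) k} (hf : AP p f) (hh : Hm r c f)
    (hU : ∀ Q ∈ U, ∃ n : Polynomial k, Q = Polynomial.aeval f n) :
    ∃ (r' : Fin 2 → A) (U' : Set (MvPolynomial (Fin 2) k)), P r' U' ∧
      ∀ Q ∈ U', ∃ n : Polynomial k, Q = Polynomial.aeval (X 0) n := by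
  obtain ⟨M, hM⟩ := hf.exists_apol
  refine euclid_apol hA hk hel hsw c (M + M) M M r U _ _ le_rfl ?_ ?_ hP (by rwa [← hM])
  · intro i _ hi
    have h1 := hh _ (mem_support_iff.2 hi)
    rwa [dgr, Finsupp.single_eq_same, Finsupp.single_eq_of_ne (by decide), zero_smul,
      add_zero] at h1
  · intro i _ hi
    have h1 := hh _ (mem_support_iff.2 hi)
    rwa [dgr, Finsupp.single_eq_same, Finsupp.single_eq_of_ne (by decide), zero_smul,
      zero_add] at h1

/-- **Additive noise of a graded set comes from one real direction.** `U` is a graded set of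
polynomials (spanned by its homogeneous elements), contained in `k[u 0]` for an additive
automorphism: after elementary steps, `U' < k[X 0]`. -/
theorem Au.real [hp : Fact p.Prime] [CharP k p] (hA : ∀ a : A, p • a = 0 → a = 0)
    (hk : ∀ (x : k) (n : ℕ), ∃ y : k, y ^ p ^ n = x)
    {P : (Fin 2 → A) → Set (MvPolynomial (Fin 2) k) → Prop}
    (hel : ∀ (r : Fin 2 → A) (U : Set (MvPolynomial (Fin 2) k)) (d : ℕ) (lam : k), P r U →
      lam ≠ 0 → r 1 = p ^ d • r 0 → P r (stp p lam d '' U))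
    (hsw : ∀ (r : Fin 2 → A) (U : Set (MvPolynomial (Fin 2) k)), P r U →
      P ![r 1, r 0] (swp '' U)) {r : Fin 2 → A} {U : Set (MvPolynomial (Fin 2) k)}
    (hP : P r U) (hgr : ∀ Q ∈ U, ∃ c : A, Hm r c Q) {u v : Fin 2 → MvPolynomial (Fin 2) k}
    (h : Au p u v) (hU : ∀ Q ∈ U, ∃ n : Polynomial k, Q = Polynomial.aeval (u 0) n) :
    ∃ (r' : Fin 2 → A) (U' : Set (MvPolynomial (Fin 2) k)), P r' U' ∧
      ∀ Q ∈ U', ∃ n : Polynomial k, Q = Polynomial.aeval (X 0) n := by
  by_cases hc : ∀ Q ∈ U, ∃ x : k, Q = C x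
  · refine ⟨r, U, hP, fun Q hQ => ?_⟩
    obtain ⟨x, rfl⟩ := hc Q hQ
    exact ⟨Polynomial.C x, by rw [Polynomial.aeval_C]; rfl⟩
  · push Not at hc
    obtain ⟨Q, hQ, hne⟩ := hc
    obtain ⟨n, hn⟩ := hU Q hQ
    obtain ⟨c₀, hc₀⟩ := hgr Q hQ
    have hn0 : 0 < n.natDegree := by
      rcases Nat.eq_zero_or_pos n.natDegree with h0 | h0
      · exfalso
        apply hne (n.coeff 0)
        rw [hn, Polynomial.eq_C_of_natDegree_eq_zero h0, Polynomial.aeval_C,
          Polynomial.coeff_C_zero]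
        rfl
      · exact h0
    obtain ⟨c, hc⟩ := h.hom hA hc₀ hn0 hn
    exact euclid hA hk hel hsw hP (h.au 0) hc hU

end Pool.Agent.TWTG
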