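import Mathlib.Algebra.MvPolynomial.Funext
import Mathlib.Algebra.MonoidAlgebra.Basic
import Mathlib.Algebra.CharP.Lemmas
import Mathlib.Algebra.CharP.Algebra
import Mathlib.Algebra.Polynomial.Degree.Lemmas
import Mathlib.Algebra.Polynomial.AlgebraMap
import Mathlib.RingTheory.Nilpotent.Basic
import Mathlib.RingTheory.Polynomial.Tower

/-!
# TANK W, contact (III.1), j = 1: group algebras in characteristic `p`

`p` is injective on `A`. `gr_red`: the group algebra `k[A]` is reduced; `natDegree_eq_zero_of_aeval`: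
a polynomial `Y` over a reduced `k`-algebra with `n(Y)` constant, `n` not constant, is constant.
-/

set_option autoImplicit false

open Polynomial Finset

namespace Pool.Agent.TWTG

/-! ### The group algebra is reduced -/

section red

variable {k A : Type*} [Field k] [AddCommGroup A] {p : ℕ} [hp : Fact p.Prime] [CharP k p]

theorem charP_gr : CharP (AddMonoidAlgebra k A) p :=
  charP_of_injective_algebraMap (algebraMap k (AddMonoidAlgebra k A)).injective p

theorem gr_frob (hA : ∀ a : A, p • a = 0 → a = 0) (y : AddMonoidAlgebra k A) (c : A) :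
    (y ^ p).coeff (p • c) = y.coeff c ^ p := by
  classical
  have _ := charP_gr (k := k) (A := A) (p := p)
  have h1 : y ^ p = ∑ a ∈ y.coeff.support,
      AddMonoidAlgebra.single (p • a) (y.coeff a ^ p) := by
    conv_lhs => rw [← AddMonoidAlgebra.sum_coeff_single y]
    rw [Finsupp.sum, sum_pow_char]
    exact sum_congr rfl fun a _ => AddMonoidAlgebra.single_pow _ _ _
  have hinj : ∀ a : A, p • a = p • c → a = c := fun a h => by
    have h2 := hA (a - c) (by rw [smul_sub, h, sub_self])
    exact sub_eq_zero.1 h2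
  rw [h1, AddMonoidAlgebra.coeff_sum, Finsupp.finset_sum_apply]
  by_cases hc : c ∈ y.coeff.support
  · rw [sum_eq_single_of_mem c hc]
    · rw [AddMonoidAlgebra.coeff_single, Finsupp.single_eq_same]
    · intro b _ hb
      rw [AddMonoidAlgebra.coeff_single]
      exact Finsupp.single_eq_of_ne fun h => hb (hinj b h.symm)
  · rw [sum_eq_zero, Finsupp.notMem_support_iff.1 hc, zero_pow hp.out.ne_zero]
    intro b hb
    rw [AddMonoidAlgebra.coeff_single]
    refine Finsupp.single_eq_of_ne fun h => hc ?_
    rwa [← hinj b h.symm]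

theorem gr_red (hA : ∀ a : A, p • a = 0 → a = 0) {y : AddMonoidAlgebra k A} {n : ℕ}
    (hy : y ^ n = 0) : y = 0 := by
  have h1 : ∀ j : ℕ, ∀ z : AddMonoidAlgebra k A, z ^ p ^ j = 0 → z = 0 := by
    intro j
    induction j with
    | zero => intro z hz; rwa [pow_zero, pow_one] at hz
    | succ j ih =>
      intro z hz
      have h2 : z ^ p = 0 := ih _ (by rw [← pow_mul, ← pow_succ']; exact hz)
      ext c
      have h3 := gr_frob hA z c
      rw [h2] at h3
      exact pow_eq_zero_iff hp.out.ne_zero |>.1 h3.symm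
  refine h1 n y ?_
  have h2 : n ≤ p ^ n := (Nat.lt_pow_self hp.out.one_lt).le
  rw [← Nat.add_sub_cancel' h2, pow_add, hy, zero_mul]

end red

/-! ### Polynomials over a reduced ring -/

section deg

variable {k S : Type*} [Field k] [CommRing S] [Algebra k S]

/-- `n(Y)` constant, `n` not constant: `Y` is constant. -/
theorem natDegree_eq_zero_of_aeval [Nontrivial S] (hS : ∀ (y : S) (n : ℕ), y ^ n = 0 → y = 0)
    {n : Polynomial k} (hn : 0 < n.natDegree) {Y : Polynomial S} {c : S}
    (h : aeval Y n = C c) : Y.natDegree = 0 := by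
  by_contra hY
  have hY0 : Y ≠ 0 := by
    rintro rfl
    exact hY natDegree_zero
  have hlc : ∀ i : ℕ, Y.leadingCoeff ^ i ≠ 0 := fun i h1 =>
    hY0 (leadingCoeff_eq_zero.1 (hS _ i h1))
  have hdeg : ∀ i : ℕ, (Y ^ i).natDegree = i * Y.natDegree := fun i =>
    natDegree_pow' (hlc i)
  have h1 : (aeval Y n).coeff (n.natDegree * Y.natDegree) =
      algebraMap k S n.leadingCoeff * Y.leadingCoeff ^ n.natDegree := by
    rw [aeval_eq_sum_range, finset_sum_coeff, sum_range_succ, sum_eq_zero, zero_add, coeff_smul,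
      ← hdeg, show (Y ^ n.natDegree).coeff (Y ^ n.natDegree).natDegree =
        (Y ^ n.natDegree).leadingCoeff from rfl, leadingCoeff_pow' (hlc _), Algebra.smul_def]
    · rfl
    · intro i hi
      have h2 : (Y ^ i).coeff (n.natDegree * Y.natDegree) = 0 := by
        refine coeff_eq_zero_of_natDegree_lt ?_
        rw [hdeg]
        exact Nat.mul_lt_mul_of_pos_right (mem_range.1 hi) (Nat.pos_of_ne_zero hY)
      rw [coeff_smul, h2, smul_zero]
  rw [h, coeff_C_of_ne_zero (Nat.mul_ne_zero hn.ne' hY)] at h1
  have hn0 : n ≠ 0 := by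
    rintro rfl
    exact lt_irrefl _ hn
  have h2 : IsUnit (algebraMap k S n.leadingCoeff) :=
    (IsUnit.mk0 _ (leadingCoeff_ne_zero.2 hn0)).map (algebraMap k S)
  have h3 := h2.mul_right_eq_zero.1 h1.symm
  exact hlc _ h3

end deg

end Pool.Agent.TWTG
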