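import Pool.Agent.Lib.TWTG.A

/-!
# TANK W, contact (III.1), j = 1: the homogeneous direction

`k[s₀, s₁]` is graded by a group `A` on which `p` is injective, `deg s_i = r i`. If a non constant
homogeneous polynomial is a polynomial in `u 0`, `(u 0, u 1)` an additive automorphism, then `u 0` is
homogeneous (`Au.hom`).
-/

set_option autoImplicit false

open Finset MvPolynomial

namespace Pool.Agent.TWTG

variable {k A : Type*} [Field k] [AddCommGroup A] {p : ℕ}

/-- The degree of an exponent. -/
def dgr (r : Fin 2 → A) (m : Fin 2 →₀ ℕ) : A := m 0 • r 0 + m 1 • r 1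

/-- The component of degree `c`. -/
noncomputable def cmp (r : Fin 2 → A) (c : A) (N : MvPolynomial (Fin 2) k) :
    MvPolynomial (Fin 2) k :=
  open Classical in ∑ m ∈ N.support with dgr r m = c, monomial m (coeff m N)

theorem coeff_cmp (r : Fin 2 → A) (c : A) (N : MvPolynomial (Fin 2) k) (m : Fin 2 →₀ ℕ) :
    coeff m (cmp r c N) = open Classical in if dgr r m = c then coeff m N else 0 := by
  classical
  rw [cmp, coeff_sum]
  simp_rw [coeff_monomial]
  by_cases hm : m ∈ N.support
  · by_cases hc : dgr r m = c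
    · rw [if_pos hc, sum_eq_single_of_mem m (mem_filter.2 ⟨hm, hc⟩), if_pos rfl]
      intro b _ hb
      rw [if_neg hb]
    · rw [if_neg hc]
      refine sum_eq_zero fun b hb => if_neg ?_
      rintro rfl
      exact hc (mem_filter.1 hb).2
  · rw [notMem_support_iff.1 hm, ite_self]
    refine sum_eq_zero fun b hb => if_neg ?_
    rintro rfl
    exact hm (mem_filter.1 hb).1

theorem support_cmp {r : Fin 2 → A} {c : A} {N : MvPolynomial (Fin 2) k} {m : Fin 2 →₀ ℕ}
    (hm : m ∈ (cmp r c N).support) : m ∈ N.support ∧ dgr r m = c := by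
  classical
  rw [mem_support_iff, coeff_cmp] at hm
  split_ifs at hm with h
  · exact ⟨mem_support_iff.2 hm, h⟩
  · exact absurd rfl hm

/-- Additive polynomials. -/
def AP (p : ℕ) (f : MvPolynomial (Fin 2) k) : Prop :=
  ∀ m ∈ f.support, ∃ (l : Fin 2) (i : ℕ), m = Finsupp.single l (p ^ i)

theorem AP.cmp {f : MvPolynomial (Fin 2) k} (h : AP p f) (r : Fin 2 → A) (c : A) :
    AP p (cmp r c f) := fun m hm => h m (support_cmp hm).1

section char

variable {S : Type*} [CommRing S] [Algebra k S]

theorem aeval_eq_sum' (x : Fin 2 → S) (f : MvPolynomial (Fin 2) k) :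
    aeval x f = ∑ m ∈ f.support, algebraMap k S (coeff m f) * (x 0 ^ m 0 * x 1 ^ m 1) := by
  rw [aeval_def, eval₂_eq']
  refine sum_congr rfl fun m _ => ?_
  rw [Fin.prod_univ_two]

variable [hp : Fact p.Prime] [CharP S p]

theorem AP.aeval_add {f : MvPolynomial (Fin 2) k} (h : AP p f) (x y : Fin 2 → S) :
    aeval (x + y) f = aeval x f + aeval y f := by
  have hp0 : ∀ i : ℕ, p ^ i ≠ 0 := fun i => (Nat.pow_pos hp.out.pos).ne'
  rw [aeval_eq_sum', aeval_eq_sum', aeval_eq_sum', ← sum_add_distrib]
  refine sum_congr rfl fun m hm => ?_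
  rw [← mul_add]
  congr 1
  obtain ⟨l, i, rfl⟩ := h m hm
  fin_cases l
  · simp [Pi.add_apply, add_pow_char_pow]
  · simp [Pi.add_apply, add_pow_char_pow]

omit [CharP S p] in
theorem AP.aeval_zero {f : MvPolynomial (Fin 2) k} (h : AP p f) :
    aeval (0 : Fin 2 → S) f = 0 := by
  have hp0 : ∀ i : ℕ, p ^ i ≠ 0 := fun i => (Nat.pow_pos hp.out.pos).ne'
  rw [aeval_eq_sum']
  refine sum_eq_zero fun m hm => ?_
  obtain ⟨l, i, rfl⟩ := h m hm
  fin_cases l
  · simp [zero_pow (hp0 i)]
  · simp [zero_pow (hp0 i)]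

end char

/-- Additive automorphisms. -/
structure Au (p : ℕ) (u v : Fin 2 → MvPolynomial (Fin 2) k) : Prop where
  au : ∀ i, AP p (u i)
  av : ∀ i, AP p (v i)
  uv : ∀ i, aeval u (v i) = X i
  vu : ∀ i, aeval v (u i) = X i

/-- Homogeneous polynomials. -/
def Hm (r : Fin 2 → A) (c : A) (N : MvPolynomial (Fin 2) k) : Prop :=
  ∀ m ∈ N.support, dgr r m = c

section dir

variable [hp : Fact p.Prime] [CharP k p] {u v : Fin 2 → MvPolynomial (Fin 2) k}

/-- The line `u 0 = 0`. -/
noncomputable def ln (v : Fin 2 → MvPolynomial (Fin 2) k) (i : Fin 2) : Polynomial k :=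
  aeval (![0, Polynomial.X] : Fin 2 → Polynomial k) (v i)

theorem aeval_comp' {T : Type*} [CommRing T] [Algebra k T] (x : Fin 2 → T)
    (g : Fin 2 → MvPolynomial (Fin 2) k) (f : MvPolynomial (Fin 2) k) :
    aeval (fun i => aeval x (g i)) f = aeval x (aeval g f) := by
  have h1 : (aeval (fun i => aeval x (g i)) : MvPolynomial (Fin 2) k →ₐ[k] T) =
      (aeval x : MvPolynomial (Fin 2) k →ₐ[k] T).comp (aeval g) := by
    ext i
    simp
  rw [h1]
  rfl

omit hp [CharP k p] in
theorem Au.ln_zero (h : Au p u v) : aeval (ln v) (u 0) = 0 := by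
  have h1 := aeval_comp' (![0, Polynomial.X] : Fin 2 → Polynomial k) v (u 0)
  rw [h.vu, aeval_X] at h1
  exact h1

/-- The components of `u 0` vanish on the line. -/
theorem Au.cmp_ln (hA : ∀ a : A, p • a = 0 → a = 0) (h : Au p u v) {r : Fin 2 → A} {c₀ : A}
    {N : MvPolynomial (Fin 2) k} (hN : Hm r c₀ N) {n : Polynomial k} (hn : 0 < n.natDegree)
    (hNn : N = Polynomial.aeval (u 0) n) (c : A) : aeval (ln v) (cmp r c (u 0)) = 0 := by
  classical
  have _ : CharP (AddMonoidAlgebra k A) p := charP_gr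
  have hpX : CharP (Polynomial (AddMonoidAlgebra k A)) p := inferInstance
  -- the points
  set q : Fin 2 → Polynomial (AddMonoidAlgebra k A) := fun i => (ln v i).map (algebraMap k (AddMonoidAlgebra k A)) with hq
  set e : A → (AddMonoidAlgebra k A) := fun a => AddMonoidAlgebra.single a 1 with he
  set pt : Fin 2 → Polynomial (AddMonoidAlgebra k A) := fun i => Polynomial.C (e (r i)) * q i with hpt
  have hqe : ∀ f : MvPolynomial (Fin 2) k, aeval q f =
      (aeval (ln v) f).map (algebraMap k (AddMonoidAlgebra k A)) := by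
    intro f
    have h1 : (aeval q : MvPolynomial (Fin 2) k →ₐ[k] Polynomial (AddMonoidAlgebra k A)) =
        (Polynomial.mapAlg k (AddMonoidAlgebra k A)).comp (aeval (ln v)) := by
      ext i : 1
      rw [AlgHom.comp_apply, aeval_X, aeval_X, Polynomial.mapAlg_eq_map]
    rw [h1, AlgHom.comp_apply, Polynomial.mapAlg_eq_map]
  have hee : ∀ (a b : A) (i j : ℕ), e a ^ i * e b ^ j = e (i • a + j • b) := by
    intro a b i j
    rw [he]
    simp only [AddMonoidAlgebra.single_pow, AddMonoidAlgebra.single_mul_single, one_pow, mul_one]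
  have hterm : ∀ m : Fin 2 →₀ ℕ, pt 0 ^ m 0 * pt 1 ^ m 1 =
      Polynomial.C (e (dgr r m)) * (q 0 ^ m 0 * q 1 ^ m 1) := by
    intro m
    rw [hpt, dgr, ← hee]
    simp only [mul_pow, Polynomial.C_mul, Polynomial.C_pow]
    ring
  have hptN : aeval pt N = Polynomial.C (e c₀) * aeval q N := by
    rw [aeval_eq_sum', aeval_eq_sum', mul_sum]
    refine sum_congr rfl fun m hm => ?_
    rw [hterm, hN m hm]
    ring
  set Y := aeval pt (u 0) with hY
  have h1 : Polynomial.aeval Y n = Polynomial.C (e c₀ * algebraMap k (AddMonoidAlgebra k A) (n.coeff 0)) := by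
    have h2 : aeval pt N = Polynomial.aeval Y n := by
      rw [hNn, hY, ← Polynomial.aeval_algHom_apply]
    have h3 : aeval q N = Polynomial.C (algebraMap k (AddMonoidAlgebra k A) (n.coeff 0)) := by
      rw [hqe, hNn, ← Polynomial.aeval_algHom_apply, h.ln_zero, Polynomial.aeval_def,
        Polynomial.eval₂_at_zero]
      change Polynomial.map _ (Polynomial.C _) = _
      rw [Polynomial.map_C]
    rw [← h2, hptN, h3, ← Polynomial.C_mul]
  have hdeg : Y.natDegree = 0 := natDegree_eq_zero_of_aeval (fun y n hy => gr_red hA hy) hn h1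
  have hY0 : Y.coeff 0 = 0 := by
    have h2 : Polynomial.aeval (0 : (AddMonoidAlgebra k A)) Y = aeval (fun i => Polynomial.aeval (0 : (AddMonoidAlgebra k A)) (pt i)) (u 0) := by
      rw [hY]
      have h3 : ((Polynomial.aeval (0 : (AddMonoidAlgebra k A))).restrictScalars k).comp (aeval pt) =
          (aeval (fun i => Polynomial.aeval (0 : (AddMonoidAlgebra k A)) (pt i)) : MvPolynomial (Fin 2) k →ₐ[k] (AddMonoidAlgebra k A)) := by
        ext i : 1
        simp
      rw [← h3]
      rfl
    have h3 : (fun i => Polynomial.aeval (0 : (AddMonoidAlgebra k A)) (pt i)) = 0 := by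
      funext i
      rw [hpt]
      simp only [map_mul, Pi.zero_apply]
      have h4 : Polynomial.aeval (0 : (AddMonoidAlgebra k A)) (q i) = 0 := by
        rw [hq]
        simp only
        rw [Polynomial.aeval_map_algebraMap]
        have h5 : Polynomial.aeval (0 : (AddMonoidAlgebra k A)) (ln v i) = aeval (0 : Fin 2 → (AddMonoidAlgebra k A)) (v i) := by
          have h6 : (Polynomial.aeval (0 : (AddMonoidAlgebra k A))).comp
              (aeval (![0, Polynomial.X] : Fin 2 → Polynomial k)) =
              (aeval (0 : Fin 2 → (AddMonoidAlgebra k A)) : MvPolynomial (Fin 2) k →ₐ[k] (AddMonoidAlgebra k A)) := by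
            ext i : 1
            fin_cases i
            · simp
            · simp
          rw [← h6]
          rfl
        rw [h5, (h.av i).aeval_zero]
      rw [h4, mul_zero]
    rw [h3, (h.au 0).aeval_zero] at h2
    rw [Polynomial.coeff_zero_eq_aeval_zero, h2]
  have hYz : Y = 0 := by
    rw [Polynomial.eq_C_of_natDegree_eq_zero hdeg, hY0, Polynomial.C_0]
  -- the coefficients
  ext j
  rw [Polynomial.coeff_zero]
  have h2 : (Y.coeff j).coeff c = 0 := by rw [hYz]; rfl
  rw [hY, aeval_eq_sum', Polynomial.finset_sum_coeff, AddMonoidAlgebra.coeff_sum,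
    Finsupp.finset_sum_apply] at h2
  rw [← h2, aeval_eq_sum', Polynomial.finset_sum_coeff]
  have h3 : ∀ m : Fin 2 →₀ ℕ, ((algebraMap k (Polynomial (AddMonoidAlgebra k A)) (coeff m (u 0)) *
      (pt 0 ^ m 0 * pt 1 ^ m 1)).coeff j).coeff c =
      if dgr r m = c then (algebraMap k (Polynomial k) (coeff m (u 0)) *
        (ln v 0 ^ m 0 * ln v 1 ^ m 1)).coeff j else 0 := by
    intro m
    have e1 : algebraMap k (Polynomial (AddMonoidAlgebra k A)) (coeff m (u 0)) =
        Polynomial.C (algebraMap k (AddMonoidAlgebra k A) (coeff m (u 0))) := rfl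
    have e2 : q 0 ^ m 0 * q 1 ^ m 1 = (ln v 0 ^ m 0 * ln v 1 ^ m 1).map (algebraMap k (AddMonoidAlgebra k A)) := by
      rw [Polynomial.map_mul, Polynomial.map_pow, Polynomial.map_pow]
    have e3 : algebraMap k (Polynomial k) (coeff m (u 0)) = Polynomial.C (coeff m (u 0)) := rfl
    rw [hterm, e1, e2, e3, Polynomial.coeff_C_mul, Polynomial.coeff_C_mul, Polynomial.coeff_map,
      Polynomial.coeff_C_mul]
    have e4 : ∀ a : k, algebraMap k (AddMonoidAlgebra k A) a = AddMonoidAlgebra.single 0 a := fun a => by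
      rw [AddMonoidAlgebra.coe_algebraMap]
      rfl
    rw [e4, e4, he]
    simp only [AddMonoidAlgebra.single_mul_single, zero_add, add_zero, one_mul]
    rw [AddMonoidAlgebra.coeff_single, Finsupp.single_apply]
  rw [sum_congr rfl fun m _ => h3 m]
  have h4 : ∀ m ∈ (cmp r c (u 0)).support, (algebraMap k (Polynomial k)
      (coeff m (cmp r c (u 0))) * (ln v 0 ^ m 0 * ln v 1 ^ m 1)).coeff j =
      if dgr r m = c then (algebraMap k (Polynomial k) (coeff m (u 0)) *
        (ln v 0 ^ m 0 * ln v 1 ^ m 1)).coeff j else 0 := by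
    intro m hm
    rw [coeff_cmp, if_pos (support_cmp hm).2, if_pos (support_cmp hm).2]
  rw [sum_congr rfl h4]
  refine (sum_subset (fun m hm => (support_cmp hm).1) fun m hm hm' => ?_)
  split_ifs with h5
  · exfalso
    apply hm'
    rw [mem_support_iff, coeff_cmp, if_pos h5]
    exact mem_support_iff.1 hm
  · rfl

end dir

end Pool.Agent.TWTG
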