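import Pool.Agent.Lib.TWTG.B
import Mathlib.Algebra.MvPolynomial.NoZeroDivisors
import Mathlib.RingTheory.MvPolynomial.Basic

/-!
# TANK W, contact (III.1), j = 1: the homogeneous direction

`Au.hom`: a non constant homogeneous polynomial in `u 0` makes `u 0` homogeneous.
-/

set_option autoImplicit false

open Finset MvPolynomial

namespace Pool.Agent.TWTG

variable {k A : Type*} [Field k] [AddCommGroup A] {p : ℕ} [hp : Fact p.Prime] [CharP k p]
  {u v : Fin 2 → MvPolynomial (Fin 2) k}

omit hp [CharP k p] in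
/-- The total degree of a polynomial in `f`. -/
theorem totalDegree_aeval {f : MvPolynomial (Fin 2) k} (hf : 0 < f.totalDegree)
    (a : Polynomial k) (ha : a ≠ 0) :
    (Polynomial.aeval f a).totalDegree = a.natDegree * f.totalDegree := by
  have hf0 : f ≠ 0 := by
    rintro rfl
    rw [totalDegree_zero] at hf
    exact lt_irrefl _ hf
  have hpow : ∀ i : ℕ, (f ^ i).totalDegree = i * f.totalDegree := by
    intro i
    induction i with
    | zero => rw [pow_zero, totalDegree_one, zero_mul]
    | succ i ih =>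
      rw [pow_succ, totalDegree_mul_of_isDomain (pow_ne_zero _ hf0) hf0, ih]
      ring
  have hle : ∀ b : Polynomial k, (Polynomial.aeval f b).totalDegree ≤
      b.natDegree * f.totalDegree := by
    intro b
    rw [Polynomial.aeval_eq_sum_range]
    refine totalDegree_finsetSum_le fun i hi => ?_
    refine (totalDegree_smul_le _ _).trans ?_
    rw [hpow]
    exact Nat.mul_le_mul_right _ (by have := mem_range.1 hi; omega)
  have hlc : a.leadingCoeff ≠ 0 := Polynomial.leadingCoeff_ne_zero.2 ha
  have hsm : ∀ (c : k) (g : MvPolynomial (Fin 2) k), c ≠ 0 →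
      (c • g).totalDegree = g.totalDegree := by
    intro c g hc
    refine le_antisymm (totalDegree_smul_le _ _) ?_
    have h1 : g = c⁻¹ • (c • g) := by rw [smul_smul, inv_mul_cancel₀ hc, one_smul]
    conv_lhs => rw [h1]
    exact totalDegree_smul_le _ _
  rcases Nat.eq_zero_or_pos a.natDegree with h0 | h0
  · refine le_antisymm (hle a) ?_
    rw [h0, zero_mul]
    exact Nat.zero_le _
  · have h1 : Polynomial.aeval f a = Polynomial.aeval f a.eraseLead +
        a.leadingCoeff • f ^ a.natDegree := by
      conv_lhs => rw [← a.eraseLead_add_C_mul_X_pow]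
      rw [map_add, map_mul, map_pow, Polynomial.aeval_C, Polynomial.aeval_X,
        Algebra.smul_def]
    have h2 : (Polynomial.aeval f a.eraseLead).totalDegree <
        (a.leadingCoeff • f ^ a.natDegree).totalDegree := by
      rw [hsm _ _ hlc, hpow]
      refine lt_of_le_of_lt (hle _) ?_
      have h3 : a.eraseLead.natDegree ≤ a.natDegree - 1 := Polynomial.eraseLead_natDegree_le a
      exact Nat.mul_lt_mul_of_pos_right (by omega) hf
    rw [h1, totalDegree_add_eq_right_of_totalDegree_lt h2, hsm _ _ hlc, hpow]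

theorem Au.ne_zero (h : Au p u v) (i : Fin 2) : u i ≠ 0 := by
  intro h0
  have h1 := h.vu i
  rw [h0, map_zero] at h1
  exact X_ne_zero i h1.symm

omit [CharP k p] in
theorem Au.deg_pos (h : Au p u v) (i : Fin 2) : 0 < (u i).totalDegree := by
  have hne : u i ≠ 0 := by
    intro h0
    have h1 := h.vu i
    rw [h0, map_zero] at h1
    exact X_ne_zero i h1.symm
  obtain ⟨m, hm⟩ := MvPolynomial.ne_zero_iff.1 hne
  have hm' : m ∈ (u i).support := mem_support_iff.2 hm
  obtain ⟨l, j, rfl⟩ := h.au i m hm'
  have h1 := le_totalDegree hm'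
  rw [Finsupp.sum_single_index rfl] at h1
  exact lt_of_lt_of_le (Nat.pow_pos hp.out.pos) h1

/-- An additive polynomial which vanishes on the line `u 0 = 0` is a polynomial in `u 0`. -/
theorem Au.exists_of_ln (h : Au p u v) {f : MvPolynomial (Fin 2) k} (hf : AP p f)
    (h0 : aeval (ln v) f = 0) : ∃ a : Polynomial k, f = Polynomial.aeval (u 0) a := by
  set σ : Fin 2 → Polynomial k := fun i =>
    aeval (![Polynomial.X, 0] : Fin 2 → Polynomial k) (v i) with hσ
  refine ⟨aeval σ f, ?_⟩
  have _ : CharP (MvPolynomial (Fin 2) k) p := inferInstance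
  -- `f = P (u)`, `P = f (v)`
  have h1 : f = aeval u (aeval v f) := by
    have h2 := aeval_comp' u v f
    rw [← h2]
    have h3 : (fun i => aeval u (v i)) = X := funext h.uv
    rw [h3, aeval_X_left, AlgHom.id_apply]
  have hsplit : v = (fun i => Polynomial.aeval (X 0 : MvPolynomial (Fin 2) k) (σ i)) +
      fun i => Polynomial.aeval (X 1 : MvPolynomial (Fin 2) k) (ln v i) := by
    funext i
    rw [Pi.add_apply]
    have h2 : (Polynomial.aeval (X 0 : MvPolynomial (Fin 2) k)) (σ i) =
        aeval (![X 0, 0] : Fin 2 → MvPolynomial (Fin 2) k) (v i) := by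
      have h3 : (Polynomial.aeval (X 0 : MvPolynomial (Fin 2) k)).comp
          (aeval (![Polynomial.X, 0] : Fin 2 → Polynomial k)) =
          aeval (![X 0, 0] : Fin 2 → MvPolynomial (Fin 2) k) := by
        ext j : 1
        fin_cases j
        · simp
        · simp
      rw [← h3]
      rfl
    have h3 : (Polynomial.aeval (X 1 : MvPolynomial (Fin 2) k)) (ln v i) =
        aeval (![0, X 1] : Fin 2 → MvPolynomial (Fin 2) k) (v i) := by
      have h3 : (Polynomial.aeval (X 1 : MvPolynomial (Fin 2) k)).comp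
          (aeval (![0, Polynomial.X] : Fin 2 → Polynomial k)) =
          aeval (![0, X 1] : Fin 2 → MvPolynomial (Fin 2) k) := by
        ext j : 1
        fin_cases j
        · simp
        · simp
      rw [← h3]
      rfl
    rw [h2, h3, ← (h.av i).aeval_add]
    have h4 : (![X 0, 0] : Fin 2 → MvPolynomial (Fin 2) k) + ![0, X 1] = X := by
      funext j
      fin_cases j
      · simp
      · simp
    rw [h4, aeval_X_left, AlgHom.id_apply]
  have h2 : aeval v f = Polynomial.aeval (X 0 : MvPolynomial (Fin 2) k) (aeval σ f) := by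
    conv_lhs => rw [hsplit]
    rw [hf.aeval_add]
    have h3 : ∀ (τ : Fin 2 → Polynomial k) (y : MvPolynomial (Fin 2) k),
        aeval (fun i => Polynomial.aeval y (τ i)) f = Polynomial.aeval y (aeval τ f) := by
      intro τ y
      have h4 : (aeval (fun i => Polynomial.aeval y (τ i)) :
          MvPolynomial (Fin 2) k →ₐ[k] MvPolynomial (Fin 2) k) =
          (Polynomial.aeval y).comp (aeval τ) := by
        ext i : 1
        simp
      rw [h4]
      rfl
    rw [h3, h3, h0, map_zero, add_zero]
  conv_lhs => rw [h1, h2]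
  rw [← Polynomial.aeval_algHom_apply, aeval_X]

/-- **The homogeneous direction.** -/
theorem Au.hom (hA : ∀ a : A, p • a = 0 → a = 0) (h : Au p u v) {r : Fin 2 → A} {c₀ : A}
    {N : MvPolynomial (Fin 2) k} (hN : Hm r c₀ N) {n : Polynomial k} (hn : 0 < n.natDegree)
    (hNn : N = Polynomial.aeval (u 0) n) : ∃ c : A, Hm r c (u 0) := by
  classical
  obtain ⟨m₀, hm₀⟩ := MvPolynomial.ne_zero_iff.1 (h.ne_zero 0)
  refine ⟨dgr r m₀, fun m hm => ?_⟩
  obtain ⟨a, ha⟩ := h.exists_of_ln ((h.au 0).cmp r (dgr r m₀))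
    (h.cmp_ln hA hN hn hNn (dgr r m₀))
  have hne : cmp r (dgr r m₀) (u 0) ≠ 0 := by
    intro h0
    have h1 := coeff_cmp r (dgr r m₀) (u 0) m₀
    rw [h0, coeff_zero, if_pos rfl] at h1
    exact hm₀ h1.symm
  have ha0 : a ≠ 0 := by
    rintro rfl
    rw [map_zero] at ha
    exact hne ha
  have hD := h.deg_pos 0
  have h1 := totalDegree_aeval hD a ha0
  rw [← ha] at h1
  have h2 : (cmp r (dgr r m₀) (u 0)).totalDegree ≤ (u 0).totalDegree := by
    refine Finset.sup_mono fun m hm => (support_cmp hm).1
  have h3 : a.natDegree ≤ 1 := by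
    rw [h1] at h2
    by_contra h4
    push Not at h4
    have h5 : 2 * (u 0).totalDegree ≤ a.natDegree * (u 0).totalDegree :=
      Nat.mul_le_mul_right _ h4
    omega
  -- no constant term
  have h4 : a.coeff 0 = 0 := by
    have h5 : aeval (0 : Fin 2 → k) (cmp r (dgr r m₀) (u 0)) = 0 :=
      ((h.au 0).cmp r _).aeval_zero
    rw [ha, ← Polynomial.aeval_algHom_apply, (h.au 0).aeval_zero, Polynomial.aeval_def,
      Polynomial.eval₂_at_zero] at h5
    exact h5
  have h5 : a = Polynomial.C (a.coeff 1) * Polynomial.X := by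
    have h6 := Polynomial.eq_X_add_C_of_natDegree_le_one h3
    rw [h4, Polynomial.C_0, add_zero] at h6
    exact h6
  have h6 : cmp r (dgr r m₀) (u 0) = C (a.coeff 1) * u 0 := by
    rw [ha]
    conv_lhs => rw [h5]
    rw [map_mul, Polynomial.aeval_C, Polynomial.aeval_X]
    rfl
  have h7 : a.coeff 1 ≠ 0 := by
    intro h8
    rw [h8, C_0, zero_mul] at h6
    exact hne h6
  have h8 : m ∈ (cmp r (dgr r m₀) (u 0)).support := by
    rw [mem_support_iff, h6, coeff_C_mul]
    exact mul_ne_zero h7 (mem_support_iff.1 hm)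
  exact (support_cmp h8).2

end Pool.Agent.TWTG
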